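import Pool.Agent.FBL.Bridge

/-!
# Fibre-like smooth toric Fano varieties of small index, Picard number or dimension

Let `V` be the vertex set of a smooth Fano polytope `Δ` in `N = ℤ^n`, let `t` be the number of
`Aut(Δ)`-orbits on `V` and `k = dim M_ℚ^{Aut(Δ)}`. If `t - k = 1` (the toric Fano variety is
fibre-like), then either `Aut(Δ)` is transitive on `V`, or the following hold: `n ≥ 16`, the Picard
number `|V| - n` is at least `6`, and the anticanonical class is divisible by an integer `q ≥ t ≥ 2`
(a functional `m` in `M` is congruent to `1` modulo `q` on all of `V`).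
-/

namespace Pool.Agent.Results.MP_62d779_ag.IndexAndDimension

open Pool.Agent.FBL

theorem result (n : ℕ) (V : Finset (Fin n → ℤ)) (hV : IsSmoothFano V)
    (hfib : numOrbits V = invRank V + 1) :
    VertexTransitive V ∨
      (16 ≤ n ∧ n + 6 ≤ V.card ∧ 2 ≤ numOrbits V ∧
        ∃ (q : ℕ) (m : (Fin n → ℤ) →+ ℤ), numOrbits V ≤ q ∧ ∀ v ∈ V, (q : ℤ) ∣ m v - 1) :=
  main' hV hfib

end Pool.Agent.Results.MP_62d779_ag.IndexAndDimension
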